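import Mathlib.Data.Real.Basic
import Mathlib.Algebra.BigOperators.Fin
import Mathlib.Algebra.Order.BigOperators.Group.Finset
import Mathlib.Data.Fintype.BigOperators
import Mathlib.Tactic

set_option autoImplicit false

/-!
# MP_a41a76_co : MXS does not imply epistemic EF1, for every number of agents at least three

For every `n ≥ 3` there is an instance with `n` agents having the same additive valuation with
values in `{4, 5, 6}` and an allocation that is MXS for every agent but not EEF1.
-/

namespace Pool.Agent.Results.MP_a41a76_co.FailsFromThree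

open Finset

/-- The additive extension of the item values `u` to sets of items. -/
def val {M : Type} (u : M → ℝ) (S : Finset M) : ℝ := ∑ g ∈ S, u g

/-- The bundle of agent `j` in the allocation `A` of the items to the agents. -/
def bundle {M : Type} [Fintype M] {n : ℕ} (A : M → Fin n) (j : Fin n) : Finset M :=
  univ.filter (fun g => A g = j)

lemma mem_bundle {M : Type} [Fintype M] {n : ℕ} (A : M → Fin n) (j : Fin n) (g : M) :
    g ∈ bundle A j ↔ A g = j := by
  simp [bundle]

/-- Agent `i`, with item values `u`, is EF1-satisfied by the allocation `A`. -/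
def EF1For {M : Type} [Fintype M] [DecidableEq M] {n : ℕ} (u : M → ℝ) (A : M → Fin n)
    (i : Fin n) : Prop :=
  ∀ j, j ≠ i → val u (bundle A j) ≤ val u (bundle A i) ∨
    ∃ g ∈ bundle A j, val u ((bundle A j).erase g) ≤ val u (bundle A i)

/-- The allocation `A` is EEF1 for agent `i` with item values `u`. -/
def EEF1For {M : Type} [Fintype M] [DecidableEq M] {n : ℕ} (u : M → ℝ) (A : M → Fin n)
    (i : Fin n) : Prop :=
  ∃ B : M → Fin n, bundle B i = bundle A i ∧ EF1For u B i

/-- Agent `i`, with item values `u`, is EFX-satisfied by the allocation `B`. -/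
def EFXFor {M : Type} [Fintype M] [DecidableEq M] {n : ℕ} (u : M → ℝ) (B : M → Fin n)
    (i : Fin n) : Prop :=
  ∀ j, j ≠ i → ∀ g ∈ bundle B j, 0 < u g →
    val u ((bundle B j).erase g) ≤ val u (bundle B i)

/-- The allocation `A` is MXS for agent `i` with item values `u`. -/
def MXSFor {M : Type} [Fintype M] [DecidableEq M] {n : ℕ} (u : M → ℝ) (A : M → Fin n)
    (i : Fin n) : Prop :=
  ∃ B : M → Fin n, EFXFor u B i ∧ val u (bundle B i) ≤ val u (bundle A i)

/-- The item values: bundle `a` consists of four items of value `4`, every other bundle of one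
item of value `6` and three items of value `5`. -/
noncomputable def vals {n : ℕ} (a : Fin n) (g : Fin n × Fin 4) : ℝ :=
  if g.1 = a then 4 else if g.2 = 0 then 6 else 5

/-- The weights of the counting argument. -/
def wt {n : ℕ} (a : Fin n) (g : Fin n × Fin 4) : ℕ := if g.1 = a then 3 else 4

/-- The allocation: agent `a` gets one item of value `4` and two items of value `6`. -/
def alloc {n : ℕ} (a b c : Fin n) (g : Fin n × Fin 4) : Fin n :=
  if g.1 = a then (if g.2 = 0 then a else if g.2 = 1 then b else c)
  else if g.2 = 0 then (if g.1 = b ∨ g.1 = c then a else g.1) else g.1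

lemma vals_pos {n : ℕ} (a : Fin n) (g : Fin n × Fin 4) : 0 < vals a g := by
  unfold vals; split_ifs <;> norm_num

lemma vals_ge {n : ℕ} (a : Fin n) (g : Fin n × Fin 4) (h : g.1 ≠ a) : 5 ≤ vals a g := by
  unfold vals; rw [if_neg h]; split_ifs <;> norm_num

lemma wt_le {n : ℕ} (a : Fin n) (g : Fin n × Fin 4) : 5 * (wt a g : ℝ) ≤ 4 * vals a g := by
  unfold vals wt; split_ifs <;> norm_num

lemma wt_le_four {n : ℕ} (a : Fin n) (g : Fin n × Fin 4) : wt a g ≤ 4 := by
  unfold wt; split_ifs <;> norm_num

lemma sum_wt_le {n : ℕ} (a : Fin n) (S : Finset (Fin n × Fin 4)) :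
    5 * ((∑ g ∈ S, wt a g : ℕ) : ℝ) ≤ 4 * val (vals a) S := by
  unfold val
  push_cast
  rw [mul_sum, mul_sum]
  exact sum_le_sum (fun g _ => wt_le a g)

lemma wt_twelve {n : ℕ} (a : Fin n) (S : Finset (Fin n × Fin 4)) (h : val (vals a) S ≤ 16) :
    ∑ g ∈ S, wt a g ≤ 12 := by
  have h1 := sum_wt_le a S
  have h2 : ((∑ g ∈ S, wt a g : ℕ) : ℝ) < 13 := by linarith
  have h3 : (∑ g ∈ S, wt a g : ℕ) < 13 := by exact_mod_cast h2
  omega

lemma bundle_perm {n : ℕ} (f : Equiv.Perm (Fin n)) (j : Fin n) :
    bundle (fun g : Fin n × Fin 4 => f g.1) j =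
      univ.filter (fun g : Fin n × Fin 4 => g.1 = f.symm j) := by
  ext g
  simp only [bundle, mem_filter, mem_univ, true_and]
  constructor
  · intro h; rw [← h]; simp
  · intro h; rw [h]; simp

lemma val_block {n : ℕ} (a j : Fin n) :
    val (vals a) (univ.filter (fun g : Fin n × Fin 4 => g.1 = j)) = if j = a then 16 else 21 := by
  unfold val
  rw [sum_filter, Fintype.sum_prod_type]
  have h : ∀ x : Fin n, (∑ y : Fin 4, if ((x, y) : Fin n × Fin 4).1 = j then vals a (x, y) else 0)
      = if x = j then (if j = a then 16 else 21) else 0 := by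
    intro x
    by_cases hx : x = j
    · subst hx
      simp only [if_true]
      rw [Fin.sum_univ_four]
      unfold vals
      by_cases ha : x = a
      · simp [ha]; norm_num
      · simp [ha]; norm_num
    · simp [hx]
  rw [sum_congr rfl (fun x _ => h x)]
  simp

lemma efx {n : ℕ} (a i : Fin n) :
    EFXFor (vals a) (fun g : Fin n × Fin 4 => Equiv.swap a i g.1) i ∧
      val (vals a) (bundle (fun g : Fin n × Fin 4 => Equiv.swap a i g.1) i) = 16 := by
  have hi : val (vals a) (bundle (fun g : Fin n × Fin 4 => Equiv.swap a i g.1) i) = 16 := by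
    rw [bundle_perm, val_block]; simp
  refine ⟨?_, hi⟩
  intro j hj g hg _
  rw [hi]
  have h1 : val (vals a) ((bundle (fun g : Fin n × Fin 4 => Equiv.swap a i g.1) j).erase g)
      = val (vals a) (bundle (fun g : Fin n × Fin 4 => Equiv.swap a i g.1) j) - vals a g := by
    unfold val
    rw [sum_erase_eq_sub hg]
  have hg' := hg
  rw [bundle_perm, mem_filter] at hg'
  have hne : (Equiv.swap a i).symm j ≠ a := by
    intro h
    apply hj
    have := congrArg (Equiv.swap a i) h
    simpa using this
  rw [h1, bundle_perm, val_block, if_neg hne]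
  have hga : g.1 ≠ a := by rw [hg'.2]; exact hne
  have : 5 ≤ vals a g := by
    unfold vals; rw [if_neg hga]; split_ifs <;> norm_num
  linarith

lemma bundle_alloc {n : ℕ} (a b c : Fin n) (hab : a ≠ b) (hac : a ≠ c) (hbc : b ≠ c) :
    bundle (alloc a b c) a = {(a, 0), (b, 0), (c, 0)} := by
  ext ⟨x, y⟩
  rw [mem_bundle]
  simp only [alloc, mem_insert, mem_singleton, Prod.mk.injEq]
  by_cases hx : x = a
  · subst hx
    simp only [if_true]
    by_cases hy : y = 0
    · simp [hy]
    · by_cases hy1 : y = 1
      · simp [hy1, hab.symm]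
      · simp [hy, hy1, hac.symm]
  · by_cases hy : y = 0
    · by_cases hxb : x = b
      · simp [hx, hy, hxb, hab.symm]
      · by_cases hxc : x = c
        · simp [hx, hy, hxc, hac.symm]
        · simp [hx, hy, hxb, hxc]
    · simp [hx, hy]

lemma sum_alloc {n : ℕ} (a b c : Fin n) (hab : a ≠ b) (hac : a ≠ c) (hbc : b ≠ c)
    {R : Type} [AddCommMonoid R] (f : Fin n × Fin 4 → R) :
    ∑ g ∈ bundle (alloc a b c) a, f g = f (a, 0) + (f (b, 0) + f (c, 0)) := by
  rw [bundle_alloc a b c hab hac hbc, sum_insert, sum_insert, sum_singleton]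
  · simp [hbc]
  · simp [hab, hac]

lemma val_alloc {n : ℕ} (a b c : Fin n) (hab : a ≠ b) (hac : a ≠ c) (hbc : b ≠ c) :
    val (vals a) (bundle (alloc a b c) a) = 16 := by
  unfold val
  rw [sum_alloc a b c hab hac hbc]
  simp only [vals, if_true, if_neg hab.symm, if_neg hac.symm]
  norm_num

lemma val_ge {n : ℕ} (a b c : Fin n) (hab : a ≠ b) (hac : a ≠ c) (hbc : b ≠ c) (i : Fin n) :
    16 ≤ val (vals a) (bundle (alloc a b c) i) := by
  by_cases hia : i = a
  · rw [hia, val_alloc a b c hab hac hbc]
  have hS : ∀ S : Finset (Fin n × Fin 4), S ⊆ bundle (alloc a b c) i →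
      16 ≤ val (vals a) S → 16 ≤ val (vals a) (bundle (alloc a b c) i) := by
    intro S hS h
    refine le_trans h ?_
    exact sum_le_sum_of_subset_of_nonneg hS (fun g _ _ => (vals_pos a g).le)
  by_cases hib : i = b
  · subst hib
    apply hS {(i, 1), (i, 2), (i, 3), (a, 1)}
    · intro g hg
      simp only [mem_insert, mem_singleton] at hg
      rw [mem_bundle]
      unfold alloc
      rcases hg with rfl | rfl | rfl | rfl <;> simp [hia]
    · unfold val
      rw [sum_insert, sum_insert, sum_insert, sum_singleton]
      · have h1 := vals_ge a (i, 1) hia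
        have h2 := vals_ge a (i, 2) hia
        have h3 := vals_ge a (i, 3) hia
        have h4 : vals a (a, 1) = 4 := by simp [vals]
        linarith
      · simp [hia]
      · simp [hia]
      · simp [hia]
  · by_cases hic : i = c
    · subst hic
      apply hS {(i, 1), (i, 2), (i, 3), (a, 2)}
      · intro g hg
        simp only [mem_insert, mem_singleton] at hg
        rw [mem_bundle]
        unfold alloc
        rcases hg with rfl | rfl | rfl | rfl <;> simp [hia]
      · unfold val
        rw [sum_insert, sum_insert, sum_insert, sum_singleton]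
        · have h1 := vals_ge a (i, 1) hia
          have h2 := vals_ge a (i, 2) hia
          have h3 := vals_ge a (i, 3) hia
          have h4 : vals a (a, 2) = 4 := by simp [vals]
          linarith
        · simp [hia]
        · simp [hia]
        · simp [hia]
    · apply hS {(i, 0), (i, 1), (i, 2), (i, 3)}
      · intro g hg
        simp only [mem_insert, mem_singleton] at hg
        rw [mem_bundle]
        unfold alloc
        rcases hg with rfl | rfl | rfl | rfl <;> simp [hia, hib, hic]
      · unfold val
        rw [sum_insert, sum_insert, sum_insert, sum_singleton]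
        · have h0 := vals_ge a (i, 0) hia
          have h1 := vals_ge a (i, 1) hia
          have h2 := vals_ge a (i, 2) hia
          have h3 := vals_ge a (i, 3) hia
          linarith
        · simp
        · simp
        · simp

lemma sum_wt {n : ℕ} (a : Fin n) : ∑ g : Fin n × Fin 4, wt a g + 4 = 16 * n := by
  rw [Fintype.sum_prod_type]
  have h : ∀ x : Fin n, (∑ y : Fin 4, wt a (x, y)) + (if x = a then 4 else 0) = 16 := by
    intro x
    rw [Fin.sum_univ_four]
    by_cases hx : x = a <;> simp [wt, hx]
  have h2 : ∑ x : Fin n, ((∑ y : Fin 4, wt a (x, y)) + (if x = a then 4 else 0)) = 16 * n := by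
    rw [sum_congr rfl (fun x _ => h x)]
    simp [mul_comm]
  rw [sum_add_distrib] at h2
  simpa using h2

lemma not_eef1 {n : ℕ} (a b c : Fin n) (hab : a ≠ b) (hac : a ≠ c) (hbc : b ≠ c) :
    ¬ EEF1For (vals a) (alloc a b c) a := by
  rintro ⟨B, hB, hEF⟩
  have h16 : val (vals a) (bundle B a) = 16 := by rw [hB, val_alloc a b c hab hac hbc]
  have hj : ∀ j, j ≠ a → ∑ g ∈ bundle B j, wt a g ≤ 16 := by
    intro j hj
    rcases hEF j hj with h | ⟨g, hg, h⟩
    · rw [h16] at h
      have := wt_twelve a _ h
      omega
    · rw [h16] at h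
      have h1 := wt_twelve a _ h
      have h2 := wt_le_four a g
      rw [← add_sum_erase _ _ hg]
      omega
  have htot : ∑ j, ∑ g ∈ bundle B j, wt a g = ∑ g, wt a g := by
    unfold bundle
    exact sum_fiberwise univ B (wt a)
  have ha : ∑ g ∈ bundle B a, wt a g = 11 := by
    rw [hB, sum_alloc a b c hab hac hbc]
    simp [wt, hab.symm, hac.symm]
  have hsplit : ∑ j, ∑ g ∈ bundle B j, wt a g
      = ∑ g ∈ bundle B a, wt a g + ∑ j ∈ univ.erase a, ∑ g ∈ bundle B j, wt a g := by
    exact (add_sum_erase univ (fun j => ∑ g ∈ bundle B j, wt a g) (mem_univ a)).symm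
  have hle : ∑ j ∈ univ.erase a, ∑ g ∈ bundle B j, wt a g ≤ (univ.erase a).card * 16 := by
    rw [← smul_eq_mul]
    apply sum_le_card_nsmul
    intro j hj'
    exact hj j (ne_of_mem_erase hj')
  have hcard : (univ.erase a : Finset (Fin n)).card + 1 = n := by
    rw [card_erase_add_one (mem_univ a)]; simp
  have hs := sum_wt a
  rw [← htot, hsplit, ha] at hs
  omega

/-- **Main theorem.**  For every number `n ≥ 3` of agents there are a finite set of goods, additive
valuations (the same for all agents, all values positive) and an allocation that is MXS for every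
agent but not EEF1 for some agent. -/
theorem result (n : ℕ) (hn : 3 ≤ n) :
    ∃ (M : Type) (_ : Fintype M) (_ : DecidableEq M) (v : Fin n → M → ℝ) (A : M → Fin n),
      (∀ i j, v i = v j) ∧ (∀ i g, 0 < v i g) ∧
      (∀ i, MXSFor (v i) A i) ∧ ∃ i, ¬ EEF1For (v i) A i := by
  let a : Fin n := ⟨0, by omega⟩
  let b : Fin n := ⟨1, by omega⟩
  let c : Fin n := ⟨2, by omega⟩
  have hab : a ≠ b := by simp [a, b]
  have hac : a ≠ c := by simp [a, c]
  have hbc : b ≠ c := by simp [b, c]
  refine ⟨Fin n × Fin 4, inferInstance, inferInstance, fun _ => vals a, alloc a b c,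
    fun _ _ => rfl, fun _ g => vals_pos a g, ?_, a, not_eef1 a b c hab hac hbc⟩
  intro i
  refine ⟨fun g => Equiv.swap a i g.1, (efx a i).1, ?_⟩
  rw [(efx a i).2]
  exact val_ge a b c hab hac hbc i

end Pool.Agent.Results.MP_a41a76_co.FailsFromThree
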